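import Mathlib

set_option autoImplicit false

/-!
# Lines of the Wang-Shi split through an interior point

Every interior point of a triangle lies on at most `d + 1` lines of the Wang-Shi split `WS_d`.
Turn a line about the point.  Between two consecutive lines of the split at least one division
point is skipped, except for at most one gap at each of the three corners.
-/

open Finset

namespace Pool.Agent.Results.MP_e74ad6_co.AtMostDPlusOne

/-! ### Lattice points on a hyperbola -/

open Classical in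
/-- the lattice points with `u / i + v / j = 1` -/
noncomputable def S (d : ℕ) (u v : ℝ) : Finset (ℕ × ℕ) :=
  ((Icc 1 d) ×ˢ (Icc 1 d)).filter (fun p => u * p.2 + v * p.1 = (p.1 : ℝ) * p.2)

open Classical in
noncomputable def L (d : ℕ) (w a : ℝ) : Finset ℕ := (Icc 1 d).filter (fun i => a * d ≤ i * w)

open Classical in
noncomputable def e1 (d : ℕ) (u v : ℝ) : ℕ := if d ∈ (S d u v).image Prod.fst then 1 else 0

open Classical in
noncomputable def e2 (d : ℕ) (u v : ℝ) : ℕ := if d ∈ (S d u v).image Prod.snd then 1 else 0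

theorem mem_S {d : ℕ} {u v : ℝ} {i j : ℕ} :
    (i, j) ∈ S d u v ↔ (1 ≤ i ∧ i ≤ d) ∧ (1 ≤ j ∧ j ≤ d) ∧ u * j + v * i = (i : ℝ) * j := by
  classical
  simp [S, and_assoc]

theorem mem_L {d : ℕ} {w a : ℝ} {i : ℕ} : i ∈ L d w a ↔ (1 ≤ i ∧ i ≤ d) ∧ a * d ≤ i * w := by
  classical
  simp [L]

theorem lt_of_mem {d : ℕ} {u v : ℝ} (hu : 0 < u) (hv : 0 < v) {i j : ℕ} (h : (i, j) ∈ S d u v) :
    u < i ∧ v < j := by
  rw [mem_S] at h
  obtain ⟨⟨hi, _⟩, ⟨hj, _⟩, h⟩ := h
  have hi' : (0 : ℝ) < i := by exact_mod_cast hi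
  have hj' : (0 : ℝ) < j := by exact_mod_cast hj
  constructor
  · by_contra hc
    rw [not_lt] at hc
    nlinarith [mul_le_mul_of_nonneg_right hc hj'.le, mul_pos hv hi']
  · by_contra hc
    rw [not_lt] at hc
    nlinarith [mul_le_mul_of_nonneg_right hc hi'.le, mul_pos hu hj']

theorem anti {d : ℕ} {u v : ℝ} (hu : 0 < u) (hv : 0 < v) {i j i' j' : ℕ}
    (h : (i, j) ∈ S d u v) (h' : (i', j') ∈ S d u v) (hlt : i < i') : j' < j := by
  obtain ⟨h1, h2⟩ := lt_of_mem hu hv h
  obtain ⟨h3, h4⟩ := lt_of_mem hu hv h'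
  have e := (mem_S.1 h).2.2
  have e' := (mem_S.1 h').2.2
  have hlt' : (i : ℝ) < i' := by exact_mod_cast hlt
  by_contra hc
  rw [not_lt] at hc
  have hc' : (j : ℝ) ≤ j' := by exact_mod_cast hc
  have p1 : ((i : ℝ) - u) * (j - v) = u * v := by linarith
  have p2 : ((i' : ℝ) - u) * (j' - v) = u * v := by linarith
  have : ((i : ℝ) - u) * (j - v) < ((i' : ℝ) - u) * (j' - v) :=
    mul_lt_mul (by linarith) (by linarith) (by linarith) (by linarith)
  linarith

theorem fst_inj {d : ℕ} {u v : ℝ} (hu : 0 < u) (hv : 0 < v) {i j j' : ℕ}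
    (h : (i, j) ∈ S d u v) (h' : (i, j') ∈ S d u v) : j = j' := by
  obtain ⟨h1, -⟩ := lt_of_mem hu hv h
  have e := (mem_S.1 h).2.2
  have e' := (mem_S.1 h').2.2
  have : ((i : ℝ) - u) * (j - j') = 0 := by linarith
  rcases mul_eq_zero.1 this with h0 | h0
  · linarith
  · have : (j : ℝ) = j' := by linarith
    exact_mod_cast this

theorem snd_inj {d : ℕ} {u v : ℝ} (hu : 0 < u) (hv : 0 < v) {i i' j : ℕ}
    (h : (i, j) ∈ S d u v) (h' : (i', j) ∈ S d u v) : i = i' := by
  rcases lt_trichotomy i i' with h0 | h0 | h0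
  · exact absurd (anti hu hv h h' h0) (lt_irrefl _)
  · exact h0
  · exact absurd (anti hu hv h' h h0) (lt_irrefl _)

/-- no two parallel unit chords -/
theorem no_two {d : ℕ} {u v : ℝ} (hu : 0 < u) (hv : 0 < v) {i j i' j' : ℕ}
    (h : (i, j) ∈ S d u v) (h1 : (i + 1, j - 1) ∈ S d u v)
    (h' : (i', j') ∈ S d u v) (h1' : (i' + 1, j' - 1) ∈ S d u v) (hlt : i < i') : False := by
  have hj := anti hu hv h h' hlt
  have a1 := (mem_S.1 h).1.1
  have b1 := (mem_S.1 h).2.1.1
  have b2 := (mem_S.1 h1).2.1.1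
  have b3 := (mem_S.1 h').2.1.1
  have b4 := (mem_S.1 h1').2.1.1
  have e := (mem_S.1 h).2.2
  have e1 := (mem_S.1 h1).2.2
  have f := (mem_S.1 h').2.2
  have f1 := (mem_S.1 h1').2.2
  obtain ⟨k, rfl⟩ : ∃ k, j = k + 1 := ⟨j - 1, by omega⟩
  obtain ⟨k', rfl⟩ : ∃ k, j' = k + 1 := ⟨j' - 1, by omega⟩
  simp only [Nat.add_sub_cancel] at b2 b4 e1 f1
  push_cast at e e1 f f1
  have hi0 : (1 : ℝ) ≤ i := by exact_mod_cast a1
  have hk : (1 : ℝ) ≤ k := by exact_mod_cast b2
  have hk' : (1 : ℝ) ≤ k' := by exact_mod_cast b4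
  have hii : (i : ℝ) < i' := by exact_mod_cast hlt
  have hkk : (k' : ℝ) < k := by
    have : k' < k := by omega
    exact_mod_cast this
  -- `u k (k+1) = v i (i+1)`
  have p : u * (k * (k + 1)) = v * (i * (i + 1)) := by
    have q1 : ((i : ℝ) + 1) * (u * (k + 1) + v * i) = (i + 1) * (i * (k + 1)) := by rw [e]
    have q2 : (i : ℝ) * (u * k + v * (i + 1)) = i * ((i + 1) * k) := by rw [e1]
    have q3 : (k : ℝ) * (u * (k + 1) + v * i) = k * (i * (k + 1)) := by rw [e]
    have q4 : ((k : ℝ) + 1) * (u * k + v * (i + 1)) = (k + 1) * ((i + 1) * k) := by rw [e1]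
    nlinarith
  have p' : u * (k' * (k' + 1)) = v * (i' * (i' + 1)) := by
    have q3 : (k' : ℝ) * (u * (k' + 1) + v * i') = k' * (i' * (k' + 1)) := by rw [f]
    have q4 : ((k' : ℝ) + 1) * (u * k' + v * (i' + 1)) = (k' + 1) * ((i' + 1) * k') := by rw [f1]
    have q1 : ((i' : ℝ) + 1) * (u * (k' + 1) + v * i') = (i' + 1) * (i' * (k' + 1)) := by rw [f]
    have q2 : (i' : ℝ) * (u * k' + v * (i' + 1)) = i' * ((i' + 1) * k') := by rw [f1]
    nlinarith
  have c1 : (k' : ℝ) * (k' + 1) < k * (k + 1) := by nlinarith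
  have c2 : (i : ℝ) * (i + 1) < i' * (i' + 1) := by nlinarith
  have c3 := mul_lt_mul_of_pos_left c1 hu
  have c4 := mul_lt_mul_of_pos_left c2 hv
  linarith

/-- the counting lemma at one corner -/
theorem corner {d : ℕ} (hd : 1 ≤ d) {u v : ℝ} (hu : 0 < u) (hv : 0 < v) (huv : u + v < d) :
    3 * (S d u v).card ≤
      (L d (d - v) u).card + (L d (d - u) v).card + e1 d u v + e2 d u v := by
  classical
  rcases (S d u v).eq_empty_or_nonempty with h0 | hne
  · rw [h0]; simp
  set A := S d u v with hA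
  obtain ⟨m, hm, hmax⟩ := A.exists_max_image Prod.fst hne
  have hinj1 : Set.InjOn Prod.fst (A : Set (ℕ × ℕ)) := by
    rintro ⟨i, j⟩ h ⟨i', j'⟩ h' hh
    simp only at hh
    subst hh
    rw [fst_inj hu hv (Finset.mem_coe.1 h) (Finset.mem_coe.1 h')]
  have hinj2 : Set.InjOn Prod.snd (A : Set (ℕ × ℕ)) := by
    rintro ⟨i, j⟩ h ⟨i', j'⟩ h' hh
    simp only at hh
    subst hh
    rw [snd_inj hu hv (Finset.mem_coe.1 h) (Finset.mem_coe.1 h')]
  set S1 := A.image Prod.fst with hS1
  set S2 := A.image Prod.snd with hS2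
  have hc1 : S1.card = A.card := Finset.card_image_of_injOn hinj1
  have hc2 : S2.card = A.card := Finset.card_image_of_injOn hinj2
  have hdv : 0 ≤ (d : ℝ) - v := by linarith
  have hdu : 0 ≤ (d : ℝ) - u := by linarith
  have hd' : (1 : ℝ) ≤ d := by exact_mod_cast hd
  -- membership in `L`
  have hS1L : ∀ i j, (i, j) ∈ A → i ∈ L d (d - v) u := by
    intro i j h
    have g := lt_of_mem hu hv h
    rw [hA, mem_S] at h
    rw [mem_L]
    refine ⟨h.1, ?_⟩
    have hj : (j : ℝ) ≤ d := by exact_mod_cast h.2.1.2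
    nlinarith [mul_le_mul_of_nonneg_left hj (by linarith [g.1] : (0 : ℝ) ≤ i - u), h.2.2]
  have hS2L : ∀ i j, (i, j) ∈ A → j ∈ L d (d - u) v := by
    intro i j h
    have g := lt_of_mem hu hv h
    rw [hA, mem_S] at h
    rw [mem_L]
    refine ⟨h.2.1, ?_⟩
    have hj : (i : ℝ) ≤ d := by exact_mod_cast h.1.2
    nlinarith [mul_le_mul_of_nonneg_left hj (by linarith [g.2] : (0 : ℝ) ≤ j - v), h.2.2]
  have hdL1 : d ∈ L d (d - v) u := by
    rw [mem_L]
    exact ⟨⟨hd, le_rfl⟩, by nlinarith⟩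
  have hdL2 : d ∈ L d (d - u) v := by
    rw [mem_L]
    exact ⟨⟨hd, le_rfl⟩, by nlinarith⟩
  have hupL : ∀ (w a : ℝ) (i k : ℕ), 0 ≤ w → i ∈ L d w a → i ≤ k → k ≤ d → k ∈ L d w a := by
    intro w a i k hw h hik hk
    rw [mem_L] at h ⊢
    refine ⟨⟨h.1.1.trans hik, hk⟩, h.2.trans ?_⟩
    exact mul_le_mul_of_nonneg_right (by exact_mod_cast hik) hw
  -- the three classes of gaps
  set A' := A.erase m with hA'
  have hA'c : A'.card + 1 = A.card := Finset.card_erase_add_one hm
  have hlt : ∀ s ∈ A', s.1 < m.1 := by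
    intro s hs
    have h1 := Finset.mem_of_mem_erase hs
    rcases lt_or_eq_of_le (hmax s h1) with h | h
    · exact h
    · exact absurd (hinj1 h1 hm h) (Finset.ne_of_mem_erase hs)
  set G1 := A'.filter (fun s => s.1 + 1 ∉ S1) with hG1
  set G2 := A'.filter (fun s => s.1 + 1 ∈ S1 ∧ s.2 - 1 ∉ S2) with hG2
  set G3 := A'.filter (fun s => s.1 + 1 ∈ S1 ∧ s.2 - 1 ∈ S2) with hG3
  have hsplit : A'.card ≤ G1.card + G2.card + G3.card := by
    have : A' ⊆ G1 ∪ G2 ∪ G3 := by
      intro s hs
      simp only [hG1, hG2, hG3, Finset.mem_union, Finset.mem_filter]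
      by_cases h1 : s.1 + 1 ∈ S1 <;> by_cases h2 : s.2 - 1 ∈ S2 <;> simp [hs, h1, h2]
    calc A'.card ≤ (G1 ∪ G2 ∪ G3).card := Finset.card_le_card this
      _ ≤ (G1 ∪ G2).card + G3.card := Finset.card_union_le _ _
      _ ≤ G1.card + G2.card + G3.card := by
        have := Finset.card_union_le G1 G2
        omega
  have hG3c : G3.card ≤ 1 := by
    rw [Finset.card_le_one]
    have hstep : ∀ s ∈ G3, (s.1 + 1, s.2 - 1) ∈ A := by
      intro s hs
      rw [hG3, Finset.mem_filter] at hs
      obtain ⟨hs, h1, h2⟩ := hs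
      have hsA := Finset.mem_of_mem_erase hs
      obtain ⟨⟨a, b⟩, hab, rfl1⟩ := Finset.mem_image.1 h1
      obtain ⟨⟨a', b'⟩, hab', rfl2⟩ := Finset.mem_image.1 h2
      simp only at rfl1 rfl2
      subst rfl1
      subst rfl2
      have hsj : 1 ≤ s.2 := (mem_S.1 (show (s.1, s.2) ∈ S d u v from hsA)).2.1.1
      have hb : b < s.2 := anti hu hv (show (s.1, s.2) ∈ S d u v from hsA) hab (by omega)
      have ha' : s.1 < a' := by
        by_contra hc
        rw [not_lt] at hc
        rcases lt_or_eq_of_le hc with hc | hc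
        · have := anti hu hv hab' (show (s.1, s.2) ∈ S d u v from hsA) hc
          omega
        · subst hc
          have := fst_inj hu hv hab' (show (s.1, s.2) ∈ S d u v from hsA)
          omega
      rcases lt_or_eq_of_le (show s.1 + 1 ≤ a' by omega) with hc | hc
      · have := anti hu hv hab hab' hc
        omega
      · rw [hc]
        exact hab'
    intro s hs t ht
    have hsA := Finset.mem_of_mem_erase (Finset.mem_filter.1 hs).1
    have htA := Finset.mem_of_mem_erase (Finset.mem_filter.1 ht).1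
    rcases lt_trichotomy s.1 t.1 with h | h | h
    · exact (no_two hu hv hsA (hstep s hs) htA (hstep t ht) h).elim
    · exact hinj1 hsA htA h
    · exact (no_two hu hv htA (hstep t ht) hsA (hstep s hs) h).elim
  -- the skipped points on the first side
  have hL1 : A.card + G1.card + 1 ≤ (L d (d - v) u).card + e1 d u v := by
    set I := G1.image (fun s => s.1 + 1) with hI
    have hIc : I.card = G1.card := by
      refine Finset.card_image_of_injOn ?_
      intro s hs t ht hst
      have hsA := Finset.mem_of_mem_erase (Finset.mem_filter.1 (Finset.mem_coe.1 hs)).1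
      have htA := Finset.mem_of_mem_erase (Finset.mem_filter.1 (Finset.mem_coe.1 ht)).1
      exact hinj1 hsA htA (by simpa using hst)
    have hm1 : m.1 ≤ d := (mem_S.1 (show (m.1, m.2) ∈ S d u v from hm)).1.2
    have hIlt : ∀ k ∈ I, k < d ∧ k ∉ S1 ∧ k ∈ L d (d - v) u := by
      intro k hk
      obtain ⟨s, hs, rfl⟩ := Finset.mem_image.1 hk
      rw [hG1, Finset.mem_filter] at hs
      have h1 := hlt s hs.1
      have h2 : s.1 + 1 ≠ m.1 := by
        intro h
        apply hs.2
        rw [h]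
        exact Finset.mem_image_of_mem _ hm
      refine ⟨by omega, hs.2, ?_⟩
      exact hupL _ _ s.1 _ hdv (hS1L s.1 s.2 (Finset.mem_of_mem_erase hs.1)) (by omega) (by omega)
    have hdisj : Disjoint S1 I := by
      rw [Finset.disjoint_right]
      intro k hk
      exact (hIlt k hk).2.1
    have hsub : S1 ∪ I ⊆ L d (d - v) u := by
      intro k hk
      rcases Finset.mem_union.1 hk with h | h
      · obtain ⟨⟨i, j⟩, hs, rfl⟩ := Finset.mem_image.1 h
        exact hS1L i j hs
      · exact (hIlt k h).2.2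
    have hcu : (S1 ∪ I).card = A.card + G1.card := by
      rw [Finset.card_union_of_disjoint hdisj, hc1, hIc]
    by_cases hdS : d ∈ S1
    · have he : e1 d u v = 1 := by rw [e1, if_pos hdS]
      have := Finset.card_le_card hsub
      omega
    · have he : e1 d u v = 0 := by rw [e1, if_neg hdS]
      have hdn : d ∉ S1 ∪ I := by
        rw [Finset.mem_union]
        rintro (h | h)
        · exact hdS h
        · exact absurd (hIlt d h).1 (lt_irrefl _)
      have := Finset.card_le_card (Finset.insert_subset hdL1 hsub)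
      rw [Finset.card_insert_of_notMem hdn] at this
      omega
  have hL2 : A.card + G2.card + 1 ≤ (L d (d - u) v).card + e2 d u v := by
    set I := G2.image (fun s => s.2 - 1) with hI
    have hpos : ∀ s ∈ A, 1 ≤ s.2 := fun s hs =>
      (mem_S.1 (show (s.1, s.2) ∈ S d u v from hs)).2.1.1
    have hIc : I.card = G2.card := by
      refine Finset.card_image_of_injOn ?_
      intro s hs t ht hst
      have hsA := Finset.mem_of_mem_erase (Finset.mem_filter.1 (Finset.mem_coe.1 hs)).1
      have htA := Finset.mem_of_mem_erase (Finset.mem_filter.1 (Finset.mem_coe.1 ht)).1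
      refine hinj2 hsA htA ?_
      have h1 := hpos s hsA
      have h2 := hpos t htA
      simp only at hst
      omega
    have hIlt : ∀ k ∈ I, k < d ∧ k ∉ S2 ∧ k ∈ L d (d - u) v := by
      intro k hk
      obtain ⟨s, hs, rfl⟩ := Finset.mem_image.1 hk
      rw [hG2, Finset.mem_filter] at hs
      have hsA := Finset.mem_of_mem_erase hs.1
      have h1 := hlt s hs.1
      have h2 : m.2 < s.2 := anti hu hv (show (s.1, s.2) ∈ S d u v from hsA)
        (show (m.1, m.2) ∈ S d u v from hm) h1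
      have h3 : s.2 ≤ d := (mem_S.1 (show (s.1, s.2) ∈ S d u v from hsA)).2.1.2
      refine ⟨by omega, hs.2.2, ?_⟩
      exact hupL _ _ m.2 _ hdu (hS2L m.1 m.2 hm) (by omega) (by omega)
    have hdisj : Disjoint S2 I := by
      rw [Finset.disjoint_right]
      intro k hk
      exact (hIlt k hk).2.1
    have hsub : S2 ∪ I ⊆ L d (d - u) v := by
      intro k hk
      rcases Finset.mem_union.1 hk with h | h
      · obtain ⟨⟨i, j⟩, hs, rfl⟩ := Finset.mem_image.1 h
        exact hS2L i j hs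
      · exact (hIlt k h).2.2
    have hcu : (S2 ∪ I).card = A.card + G2.card := by
      rw [Finset.card_union_of_disjoint hdisj, hc2, hIc]
    by_cases hdS : d ∈ S2
    · have he : e2 d u v = 1 := by rw [e2, if_pos hdS]
      have := Finset.card_le_card hsub
      omega
    · have he : e2 d u v = 0 := by rw [e2, if_neg hdS]
      have hdn : d ∉ S2 ∪ I := by
        rw [Finset.mem_union]
        rintro (h | h)
        · exact hdS h
        · exact absurd (hIlt d h).1 (lt_irrefl _)
      have := Finset.card_le_card (Finset.insert_subset hdL2 hsub)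
      rw [Finset.card_insert_of_notMem hdn] at this
      omega
  omega

/-- the line through the vertex seen from the two corners -/
theorem vertex {d : ℕ} {u v t : ℝ} (hu : 0 < u) (hv : 0 < v) (ht : 0 < t) (h : u + v + t = d) :
    e2 d u v ≤ e1 d v t := by
  classical
  rw [e2, e1]
  split_ifs with h1 h2 h2
  · exact le_rfl
  · exfalso
    apply h2
    obtain ⟨⟨i, j⟩, hs, hj⟩ := Finset.mem_image.1 h1
    simp only at hj
    subst hj
    have g := lt_of_mem hu hv hs
    rw [mem_S] at hs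
    obtain ⟨⟨hi1, hi2⟩, ⟨hj1, -⟩, he⟩ := hs
    have hj0 : (1 : ℝ) ≤ j := by exact_mod_cast hj1
    have hlt : i < j := by
      have : (i : ℝ) < j := by
        by_contra hc
        rw [not_lt] at hc
        nlinarith
      exact_mod_cast this
    refine Finset.mem_image.2 ⟨(j, j - i), ?_, rfl⟩
    rw [mem_S]
    refine ⟨⟨hj1, le_rfl⟩, ⟨by omega, by omega⟩, ?_⟩
    rw [Nat.cast_sub hlt.le]
    have : t = j - u - v := by linarith
    rw [this]
    nlinarith
  · exact Nat.zero_le _
  · exact le_rfl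

/-- the division points of one side -/
theorem side {d : ℕ} (hd : 1 ≤ d) {u v t : ℝ} (hu : 0 < u) (hv : 0 < v) (ht : 0 < t)
    (h : u + v + t = d) :
    (L d (d - v) u).card + (L d (d - v) t).card ≤ d + 1 + e2 d u v := by
  classical
  -- reflect the second set
  set B := (L d (d - v) t).image (fun i => d - i) with hB
  have hBc : B.card = (L d (d - v) t).card := by
    refine Finset.card_image_of_injOn ?_
    intro i hi j hj hij
    have h1 := (mem_L.1 (Finset.mem_coe.1 hi)).1.2
    have h2 := (mem_L.1 (Finset.mem_coe.1 hj)).1.2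
    simp only at hij
    omega
  have hBm : ∀ k ∈ B, k ≤ d ∧ (k : ℝ) * (d - v) ≤ u * d := by
    intro k hk
    obtain ⟨i, hi, rfl⟩ := Finset.mem_image.1 hk
    rw [mem_L] at hi
    refine ⟨by omega, ?_⟩
    rw [Nat.cast_sub hi.1.2]
    have : t = d - u - v := by linarith
    rw [this] at hi
    nlinarith [hi.2]
  have hun : (L d (d - v) u ∪ B).card ≤ d + 1 := by
    have : L d (d - v) u ∪ B ⊆ Finset.range (d + 1) := by
      intro k hk
      rw [Finset.mem_range]
      rcases Finset.mem_union.1 hk with h | h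
      · have := (mem_L.1 h).1.2
        omega
      · have := (hBm k h).1
        omega
    simpa using Finset.card_le_card this
  have hint : (L d (d - v) u ∩ B).card ≤ e2 d u v := by
    have hdv : 0 < (d : ℝ) - v := by linarith
    have heq : ∀ k ∈ L d (d - v) u ∩ B, (k : ℝ) * (d - v) = u * d := by
      intro k hk
      rw [Finset.mem_inter] at hk
      exact le_antisymm (hBm k hk.2).2 (mem_L.1 hk.1).2
    rcases (L d (d - v) u ∩ B).eq_empty_or_nonempty with h0 | ⟨k, hk⟩
    · rw [h0]; simp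
    · have h1 : e2 d u v = 1 := by
        rw [e2, if_pos]
        refine Finset.mem_image.2 ⟨(k, d), ?_, rfl⟩
        rw [mem_S]
        have hkL := (mem_L.1 (Finset.mem_inter.1 hk).1).1
        refine ⟨hkL, ⟨hd, le_rfl⟩, ?_⟩
        have := heq k hk
        nlinarith
      rw [h1, Finset.card_le_one]
      intro a ha b hb
      have := (heq a ha).trans (heq b hb).symm
      have := mul_right_cancel₀ hdv.ne' this
      exact_mod_cast this
  have := Finset.card_union_add_card_inter (L d (d - v) u) B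
  omega

open Classical in
/-- the elements of `S` with first coordinate different from `d` -/
noncomputable def So (d : ℕ) (u v : ℝ) : Finset (ℕ × ℕ) := (S d u v).filter (fun p => p.1 ≠ d)

theorem So_card (d : ℕ) (u v : ℝ) : (So d u v).card + e1 d u v ≤ (S d u v).card := by
  classical
  rw [e1]
  split_ifs with h
  · obtain ⟨s, hs, hsd⟩ := Finset.mem_image.1 h
    have : So d u v ⊂ S d u v := by
      refine Finset.filter_ssubset.2 ⟨s, hs, ?_⟩
      simpa using hsd
    have := Finset.card_lt_card this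
    omega
  · have := Finset.card_le_card (Finset.filter_subset (fun p : ℕ × ℕ => p.1 ≠ d) (S d u v))
    simpa [So] using this

theorem total {d : ℕ} (hd : 1 ≤ d) {x y z : ℝ} (hx : 0 < x) (hy : 0 < y) (hz : 0 < z)
    (h : x + y + z = d) : (So d x y).card + (So d y z).card + (So d z x).card ≤ d + 1 := by
  have cA := corner hd hx hy (by linarith)
  have cB := corner hd hy hz (by linarith)
  have cC := corner hd hz hx (by linarith)
  have sA := side hd hx hy hz h
  have sB := side hd hy hz hx (by linarith)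
  have sC := side hd hz hx hy (by linarith)
  have vA := vertex hx hy hz h
  have vB := vertex hy hz hx (by linarith)
  have vC := vertex hz hx hy (by linarith)
  have oA := So_card d x y
  have oB := So_card d y z
  have oC := So_card d z x
  omega

/-! ### The geometry -/

/-- The division points on the side of the triangle `T` opposite to the vertex `T k`. -/
def sidePoints (T : Fin 3 → ℝ × ℝ) (d : ℕ) (k : Fin 3) : Set (ℝ × ℝ) :=
  {Z | ∃ i : ℕ, i ≤ d ∧ Z = AffineMap.lineMap (T (k + 1)) (T (k + 2)) ((i : ℝ) / d)}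

/-- The lines of the Wang-Shi split: all lines through two division points which do not lie on a
common side. -/
def wsLines (T : Fin 3 → ℝ × ℝ) (d : ℕ) : Set (AffineSubspace ℝ (ℝ × ℝ)) :=
  {l | ∃ X Y : ℝ × ℝ, (∃ k, X ∈ sidePoints T d k) ∧ (∃ k, Y ∈ sidePoints T d k) ∧
    (∀ k, ¬ (X ∈ sidePoints T d k ∧ Y ∈ sidePoints T d k)) ∧ l = line[ℝ, X, Y]}

theorem rel {d : ℕ} (hd : 1 ≤ d) {V U W P : ℝ × ℝ} (f g : (ℝ × ℝ) →ᵃ[ℝ] ℝ)
    (hf : f V = 0 ∧ f U = 1 ∧ f W = 0) (hg : g V = 0 ∧ g U = 0 ∧ g W = 1) {a b : ℕ}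
    (hb : b ≤ d)
    (hP : P ∈ line[ℝ, AffineMap.lineMap V U ((a : ℝ) / d), AffineMap.lineMap W V ((b : ℝ) / d)]) :
    f P * d * ((d - b : ℕ) : ℝ) + g P * d * a = (a : ℝ) * ((d - b : ℕ) : ℝ) := by
  obtain ⟨τ, rfl⟩ := mem_affineSpan_pair_iff_exists_lineMap_eq.1 hP
  have hd' : (d : ℝ) ≠ 0 := by
    have : (1 : ℝ) ≤ d := by exact_mod_cast hd
    linarith
  rw [Nat.cast_sub hb]
  simp only [AffineMap.apply_lineMap, hf.1, hf.2.1, hf.2.2, hg.1, hg.2.1, hg.2.2,
    AffineMap.lineMap_apply_ring']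
  field_simp
  ring

theorem pt_mem (T : Fin 3 → ℝ × ℝ) {d : ℕ} {k : Fin 3} {i : ℕ} (hi : i ≤ d) :
    AffineMap.lineMap (T (k + 1)) (T (k + 2)) ((i : ℝ) / d) ∈ sidePoints T d k := ⟨i, hi, rfl⟩

theorem start_mem (T : Fin 3 → ℝ × ℝ) (d : ℕ) (k : Fin 3) : T (k + 1) ∈ sidePoints T d k :=
  ⟨0, Nat.zero_le _, by simp⟩

theorem end_mem (T : Fin 3 → ℝ × ℝ) {d : ℕ} (hd : 1 ≤ d) (k : Fin 3) :
    T (k + 2) ∈ sidePoints T d k := by
  have hd' : (d : ℝ) ≠ 0 := by
    have : (1 : ℝ) ≤ d := by exact_mod_cast hd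
    linarith
  exact ⟨d, le_rfl, by rw [div_self hd', AffineMap.lineMap_apply_one]⟩

/-- the line through the point number `i` of side `k` and the point number `d - j` of side
`k + 2` -/
noncomputable def ln (T : Fin 3 → ℝ × ℝ) (d : ℕ) (k : Fin 3) (p : ℕ × ℕ) :
    AffineSubspace ℝ (ℝ × ℝ) :=
  line[ℝ, AffineMap.lineMap (T (k + 1)) (T (k + 2)) ((p.1 : ℝ) / d),
    AffineMap.lineMap (T (k + 2 + 1)) (T (k + 2 + 2)) (((d - p.2 : ℕ) : ℝ) / d)]

theorem f3 (k : Fin 3) : k + 2 + 1 = k ∧ k + 2 + 2 = k + 1 ∧ k + 1 ≠ k ∧ k + 2 ≠ k ∧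
    k + 1 ≠ k + 2 ∧ k + 1 + 1 = k + 2 ∧ k + 1 + 2 = k := by
  fin_cases k <;> decide

theorem core {d : ℕ} (hd : 1 ≤ d) (b : AffineBasis (Fin 3) ℝ (ℝ × ℝ)) {P : ℝ × ℝ}
    (hP : ∀ m, 0 < b.coord m P) {k : Fin 3} {X Y : ℝ × ℝ} (hX : X ∈ sidePoints b d k)
    (hY : Y ∈ sidePoints b d (k + 2))
    (hXY : ∀ k, ¬ (X ∈ sidePoints b d k ∧ Y ∈ sidePoints b d k)) (hl : P ∈ line[ℝ, X, Y]) :
    ∃ m, ∃ p ∈ So d (b.coord (m + 2) P * d) (b.coord m P * d), line[ℝ, X, Y] = ln b d m p := by
  classical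
  have hd' : (1 : ℝ) ≤ d := by exact_mod_cast hd
  have hd0 : (d : ℝ) ≠ 0 := by linarith
  obtain ⟨h21, h22, h1k, h2k, h12, h11, h1s2⟩ := f3 k
  obtain ⟨a, ha, rfl⟩ := hX
  obtain ⟨c, hc, rfl⟩ := hY
  have hsum : b.coord k P + b.coord (k + 1) P + b.coord (k + 2) P = 1 := by
    have := b.sum_coord_apply_eq_one P
    rw [Fin.sum_univ_three] at this
    fin_cases k
    · simpa using this
    · have e : ((1 : Fin 3) + 1 = 2) ∧ ((1 : Fin 3) + 2 = 0) := by decide
      show b.coord 1 P + b.coord (1 + 1) P + b.coord (1 + 2) P = 1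
      rw [e.1, e.2]
      linarith
    · have e : ((2 : Fin 3) + 1 = 0) ∧ ((2 : Fin 3) + 2 = 1) := by decide
      show b.coord 2 P + b.coord (2 + 1) P + b.coord (2 + 2) P = 1
      rw [e.1, e.2]
      linarith
  have hrel := rel hd (V := b (k + 1)) (U := b (k + 2)) (W := b k) (b.coord (k + 2)) (b.coord k)
    ⟨b.coord_apply_ne h12.symm, b.coord_apply_eq _, b.coord_apply_ne h2k⟩
    ⟨b.coord_apply_ne h1k.symm, b.coord_apply_ne h2k.symm, b.coord_apply_eq _⟩ (a := a) (b := c) hc
    (by rw [h21, h22] at hl; exact hl)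
  -- `a ≥ 1` and `c < d`
  have ha1 : 1 ≤ a := by
    by_contra h
    have h0 : a = 0 := by omega
    subst h0
    apply hXY (k + 2)
    refine ⟨?_, ⟨c, hc, rfl⟩⟩
    have := end_mem b hd (k + 2)
    rw [h22] at this
    simpa using this
  have hc1 : c < d := by
    by_contra h
    have h0 : c = d := by omega
    subst h0
    apply hXY k
    refine ⟨⟨a, ha, rfl⟩, ?_⟩
    rw [div_self hd0, AffineMap.lineMap_apply_one, h22]
    exact start_mem b c k
  by_cases had : a = d
  · -- the line passes through the vertex `k + 2`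
    have hc0 : 1 ≤ c := by
      by_contra h
      have h0 : c = 0 := by omega
      subst h0
      apply hXY (k + 1)
      constructor
      · rw [had, div_self hd0, AffineMap.lineMap_apply_one]
        have := start_mem b d (k + 1)
        rwa [h11] at this
      · have := end_mem b hd (k + 1)
        rw [h1s2] at this
        rw [h21]
        simpa using this
    refine ⟨k + 2, (c, d), ?_, ?_⟩
    · rw [So, Finset.mem_filter]
      refine ⟨?_, by simpa using hc1.ne⟩
      rw [mem_S, h22]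
      refine ⟨⟨hc0, hc⟩, ⟨hd, le_rfl⟩, ?_⟩
      rw [had, Nat.cast_sub hc] at hrel
      have : b.coord (k + 1) P = 1 - b.coord k P - b.coord (k + 2) P := by linarith
      rw [this]
      nlinarith
    · rw [ln]
      simp only [Nat.sub_self, Nat.cast_zero, zero_div, AffineMap.lineMap_apply_zero]
      have e : (k + 2 + 2 + 1 : Fin 3) = k + 2 := by fin_cases k <;> decide
      rw [e, had, div_self hd0, AffineMap.lineMap_apply_one, Set.pair_comm]
  · refine ⟨k, (a, d - c), ?_, ?_⟩
    · rw [So, Finset.mem_filter]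
      refine ⟨?_, by simpa using had⟩
      rw [mem_S]
      exact ⟨⟨ha1, ha⟩, ⟨by omega, by omega⟩, hrel⟩
    · rw [ln]
      have : d - (d - c) = c := by omega
      simp only [this]

/-- **Every interior point of a triangle lies on at most `d + 1` lines of the Wang-Shi split.** -/
theorem result (T : Fin 3 → ℝ × ℝ) (hT : AffineIndependent ℝ T) (d : ℕ) (hd : 2 ≤ d)
    (P : ℝ × ℝ) (hP : P ∈ interior (convexHull ℝ (Set.range T))) :
    {l ∈ wsLines T d | P ∈ l}.encard ≤ d + 1 := by
  classical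
  have htop : affineSpan ℝ (Set.range T) = ⊤ := by
    rw [hT.affineSpan_eq_top_iff_card_eq_finrank_add_one]
    simp
  set b : AffineBasis (Fin 3) ℝ (ℝ × ℝ) := ⟨T, hT, htop⟩ with hb
  have hbT : (b : Fin 3 → ℝ × ℝ) = T := rfl
  have hd1 : 1 ≤ d := by omega
  have hd' : (0 : ℝ) < d := by
    have : (2 : ℝ) ≤ d := by exact_mod_cast hd
    linarith
  have hpos : ∀ m, 0 < b.coord m P := by
    have := b.interior_convexHull
    rw [hbT] at this
    rw [this] at hP
    exact hP
  set F : Finset (AffineSubspace ℝ (ℝ × ℝ)) := Finset.univ.biUnion fun m : Fin 3 =>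
    (So d (b.coord (m + 2) P * d) (b.coord m P * d)).image (ln T d m) with hF
  have hsub : {l ∈ wsLines T d | P ∈ l} ⊆ (F : Set (AffineSubspace ℝ (ℝ × ℝ))) := by
    rintro l ⟨⟨X, Y, ⟨k, hX⟩, ⟨k', hY⟩, hXY, rfl⟩, hl⟩
    have hkk : k' = k + 2 ∨ k = k' + 2 := by
      have hne : k ≠ k' := by
        rintro rfl
        exact hXY k ⟨hX, hY⟩
      fin_cases k <;> fin_cases k' <;> first | exact absurd rfl hne | decide
    have : ∃ m, ∃ p ∈ So d (b.coord (m + 2) P * d) (b.coord m P * d),
        line[ℝ, X, Y] = ln b d m p := by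
      rcases hkk with rfl | rfl
      · exact core hd1 b hpos hX hY hXY hl
      · have hl' : P ∈ line[ℝ, Y, X] := by rwa [Set.pair_comm]
        have := core hd1 b hpos hY hX (fun k h => hXY k ⟨h.2, h.1⟩) hl'
        rwa [Set.pair_comm] at this
    obtain ⟨m, p, hp, he⟩ := this
    rw [he, Finset.mem_coe, hF, Finset.mem_biUnion]
    exact ⟨m, Finset.mem_univ _, Finset.mem_image_of_mem _ hp⟩
  have hsum : b.coord 2 P * d + b.coord 0 P * d + b.coord 1 P * d = d := by
    have := b.sum_coord_apply_eq_one P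
    rw [Fin.sum_univ_three] at this
    rw [← add_mul, ← add_mul, show b.coord 2 P + b.coord 0 P + b.coord 1 P = 1 by linarith,
      one_mul]
  have htot := total hd1 (mul_pos (hpos 2) hd') (mul_pos (hpos 0) hd') (mul_pos (hpos 1) hd') hsum
  have hFc : F.card ≤ d + 1 := by
    refine (Finset.card_biUnion_le).trans ?_
    rw [Fin.sum_univ_three]
    have i0 := Finset.card_image_le (s := So d (b.coord (0 + 2) P * d) (b.coord 0 P * d))
      (f := ln T d 0)
    have i1 := Finset.card_image_le (s := So d (b.coord (1 + 2) P * d) (b.coord 1 P * d))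
      (f := ln T d 1)
    have i2 := Finset.card_image_le (s := So d (b.coord (2 + 2) P * d) (b.coord 2 P * d))
      (f := ln T d 2)
    have q0 : (0 + 2 : Fin 3) = 2 := by decide
    have q1 : (1 + 2 : Fin 3) = 0 := by decide
    have q2 : (2 + 2 : Fin 3) = 1 := by decide
    rw [q0] at i0 ⊢
    rw [q1] at i1 ⊢
    rw [q2] at i2 ⊢
    omega
  calc {l ∈ wsLines T d | P ∈ l}.encard ≤ (F : Set (AffineSubspace ℝ (ℝ × ℝ))).encard :=
        Set.encard_le_encard hsub
    _ = (F.card : ℕ∞) := Set.encard_coe_eq_coe_finsetCard F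
    _ ≤ ((d + 1 : ℕ) : ℕ∞) := by exact_mod_cast hFc
    _ = d + 1 := by push_cast; rfl

end Pool.Agent.Results.MP_e74ad6_co.AtMostDPlusOne
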